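import Mathlib

namespace Pool.Agent.Results.MP_14d1e0_nt.Empty

open Matrix

/-- an integer vector viewed as a real vector (with the supremum norm) -/
def re {k : ℕ} (y : Fin k → ℤ) : Fin k → ℝ := fun j => (y j : ℝ)

/-- Liouville matrices.  In condition 2 we ask `1 < ‖y‖` (as for Liouville numbers, where the
denominator is `> 1`); without it condition 2 would be met trivially by a unit vector `y`. -/
def IsLiouvilleMat {m n : ℕ} (M : Matrix (Fin m) (Fin n) ℝ) : Prop :=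
  (∀ (y : Fin n → ℤ) (x : Fin m → ℤ), (y ≠ 0 ∨ x ≠ 0) → M *ᵥ re y ≠ re x) ∧
  ∀ N : ℝ, 0 < N → ∃ (x : Fin m → ℤ) (y : Fin n → ℤ),
    1 < ‖re y‖ ∧ ‖M *ᵥ re y - re x‖ < ‖re y‖ ^ (-N)

lemma sqrt2 (Q k : ℤ) (hQ : 0 < Q) : 1 ≤ |√2 * Q - k| * (|√2 * Q - k| + 3 * Q) := by
  have hs : √2 * √2 = 2 := Real.mul_self_sqrt (by norm_num)
  have hs0 : 0 < √2 := Real.sqrt_pos.mpr (by norm_num)
  have hs1 : √2 ≤ 3 / 2 := by nlinarith
  have hQ' : (0 : ℝ) < Q := by exact_mod_cast hQ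
  have hne : 2 * Q ^ 2 - k ^ 2 ≠ 0 := by
    intro h
    have h' : (2 : ℝ) * Q ^ 2 - k ^ 2 = 0 := by exact_mod_cast h
    have h2 : (√2 * Q - k) * (√2 * Q + k) = 0 := by nlinarith
    have irr := irrational_sqrt_two
    rcases mul_eq_zero.mp h2 with h3 | h3
    · exact irr ⟨k / Q, by push_cast; field_simp; linarith⟩
    · exact irr ⟨-k / Q, by push_cast; field_simp; linarith⟩
  have h1 : (1 : ℝ) ≤ |(2 : ℝ) * Q ^ 2 - k ^ 2| := by exact_mod_cast Int.one_le_abs hne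
  have h2 : (2 : ℝ) * Q ^ 2 - k ^ 2 = (√2 * Q - k) * (√2 * Q + k) := by nlinarith
  rw [h2, abs_mul] at h1
  refine h1.trans (mul_le_mul_of_nonneg_left ?_ (abs_nonneg _))
  have h3 : √2 * Q + k = -(√2 * Q - k) + 2 * √2 * Q := by ring
  rw [h3]
  refine (abs_add_le _ _).trans ?_
  rw [abs_neg, abs_of_pos (by positivity : 0 < 2 * √2 * Q)]
  nlinarith

/-- For `A = √2 · [[0,-1],[1,0]]` no real `l` makes `A - l I₂` a Liouville matrix. -/
theorem result : ∃ A : Matrix (Fin 2) (Fin 2) ℝ, ∀ l : ℝ,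
    ¬ IsLiouvilleMat (A - l • (1 : Matrix (Fin 2) (Fin 2) ℝ)) := by
  refine ⟨!![0, -√2; √2, 0], fun l h => ?_⟩
  obtain ⟨x, y, hy, hlt⟩ := h.2 8 (by norm_num)
  set H := ‖re y‖ with hH
  set e := (!![0, -√2; √2, 0] - l • (1 : Matrix (Fin 2) (Fin 2) ℝ)) *ᵥ re y - re x with he
  have e0 : e 0 = -l * y 0 - √2 * y 1 - x 0 := by
    simp [he, re, vecHead, vecTail]; ring
  have e1 : e 1 = √2 * y 0 - l * y 1 - x 1 := by
    simp [he, re, vecHead, vecTail]; ring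
  have y0 : |(y 0 : ℝ)| ≤ H := norm_le_pi_norm (re y) 0
  have y1 : |(y 1 : ℝ)| ≤ H := norm_le_pi_norm (re y) 1
  have b0 : |e 0| ≤ ‖e‖ := norm_le_pi_norm e 0
  have b1 : |e 1| ≤ ‖e‖ := norm_le_pi_norm e 1
  have hH2 : 2 ≤ H := by
    by_contra hc
    push Not at hc
    have : H ≤ 1 := by
      rw [hH, pi_norm_le_iff_of_nonneg zero_le_one]
      intro i
      have h1 : |(y i : ℝ)| < 2 := lt_of_le_of_lt (norm_le_pi_norm (re y) i) hc
      have h2 : |y i| < 2 := by exact_mod_cast h1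
      have h3 : |y i| ≤ 1 := by omega
      show |(y i : ℝ)| ≤ 1
      exact_mod_cast h3
    linarith
  have hQ : 0 < y 0 ^ 2 + y 1 ^ 2 := by
    by_contra hc
    have a0 : y 0 = 0 := by nlinarith [sq_nonneg (y 0), sq_nonneg (y 1)]
    have a1 : y 1 = 0 := by nlinarith [sq_nonneg (y 0), sq_nonneg (y 1)]
    have : H ≤ 0 := by
      rw [hH, pi_norm_le_iff_of_nonneg le_rfl]
      intro i
      fin_cases i <;> simp [re, a0, a1]
    linarith
  have key := sqrt2 (y 0 ^ 2 + y 1 ^ 2) (y 0 * x 1 - y 1 * x 0) hQ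
  have w : √2 * ((y 0 ^ 2 + y 1 ^ 2 : ℤ) : ℝ) - ((y 0 * x 1 - y 1 * x 0 : ℤ) : ℝ)
      = y 0 * e 1 - y 1 * e 0 := by rw [e0, e1]; push_cast; ring
  rw [w] at key
  have hE : 0 ≤ ‖e‖ := norm_nonneg _
  have hHpos : 0 < H := by linarith
  have w2 : |y 0 * e 1 - y 1 * e 0| ≤ 2 * H * ‖e‖ := by
    refine (abs_sub _ _).trans ?_
    rw [abs_mul, abs_mul]
    have := mul_le_mul y0 b1 (abs_nonneg _) hHpos.le
    have := mul_le_mul y1 b0 (abs_nonneg _) hHpos.le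
    linarith
  have hlt' : ‖e‖ * H ^ 8 < 1 := by
    rw [Real.rpow_neg hHpos.le, show (8 : ℝ) = (8 : ℕ) by norm_num, Real.rpow_natCast] at hlt
    rw [← lt_div_iff₀ (by positivity), one_div]; exact hlt
  have q0 : (y 0 : ℝ) ^ 2 ≤ H ^ 2 := by rw [← sq_abs]; exact pow_le_pow_left₀ (abs_nonneg _) y0 2
  have q1 : (y 1 : ℝ) ^ 2 ≤ H ^ 2 := by rw [← sq_abs]; exact pow_le_pow_left₀ (abs_nonneg _) y1 2
  push_cast at key
  set D := |y 0 * e 1 - y 1 * e 0| with hD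
  have hD0 : 0 ≤ D := abs_nonneg _
  have h5 : 32 ≤ H ^ 5 := by
    have := pow_le_pow_left₀ (by norm_num) hH2 5
    linarith
  have h3 : 8 ≤ H ^ 3 := by
    have := pow_le_pow_left₀ (by norm_num) hH2 3
    linarith
  have hE3 : ‖e‖ * H ^ 3 * 32 < 1 := by
    have : ‖e‖ * H ^ 3 * 32 ≤ ‖e‖ * H ^ 3 * H ^ 5 :=
      mul_le_mul_of_nonneg_left h5 (by positivity)
    nlinarith
  have hH2' : 4 ≤ H ^ 2 := by nlinarith
  have hD1 : D * H ^ 2 ≤ 1 / 16 := by nlinarith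
  have hD2 : D ≤ 1 / 64 := by nlinarith
  nlinarith

end Pool.Agent.Results.MP_14d1e0_nt.Empty
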